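import Pool.Agent.X242.TB8

/-!
# Selberg's conjecture for primitive functions and the order of magnitude of `∑ |a(n)|²/n`

Let `F(s) = ∑ a(n) n^{-s}` be an element of the Selberg class and `κ ≥ 0` an integer. The following are equivalent:

1. `∑_{p ≤ x} |a(p)|²/p = κ log log x + O(1)` as `x → ∞`;
2. `∑_p |a(p)|² p^{-1-σ} = κ log (1/σ) + O(1)` as `σ → 0+`;
3. `∑_p |a(p)|² p^{-1-σ} = κ k log 2 + O(1)` for `σ = 2^{-k}`, as `k → ∞`;
4. `∑_n |a(n)|² n^{-1-σ}` has the exact order `σ^{-κ}` as `σ → 0+`;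
5. `∑_{n ≤ x} |a(n)|²/n` has the exact order `(log x)^κ` as `x → ∞`.

For `κ = 1` and primitive `F`, 1 is Selberg's conjecture (Q1). So the conjecture holds if and only if
`c log x ≤ ∑_{n ≤ x} |a(n)|²/n ≤ C log x` with positive constants `c`, `C`, for every primitive `F`: the asymptotic
formula over the primes is equivalent to two-sided bounds up to constants over the integers, without any knowledge of
a continuation of `∑ |a(n)|² n^{-s}`.

The proof is elementary: an equivalence with bounded error between partial sums and Laplace transforms of nonnegative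
weights (`Pool.Agent.X242.TB1`, `TB2`, `TB5`), the multiplicativity of `a`, deduced from the axiom of the Euler product
(`TB4`), and the Euler product of `∑ |a(n)|² n^{-1-σ}` (`TB6`).
-/

set_option autoImplicit false

namespace Pool.Agent.Results.MP_8e9775_nt.MeanSquareCriterion

open Filter Topology Asymptotics Pool.Agent.X242.TB

/-- The statement of Q1. -/
def SelbergConjecture : Prop :=
  ∀ a : ℕ → ℂ, IsPrimitive a →
    (fun x : ℝ => primeSum a x - Real.log (Real.log x)) =O[atTop] (fun _ => (1 : ℝ))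

/-- **The criterion.** -/
theorem result :
    (∀ a : ℕ → ℂ, IsSelberg a → ∀ κ : ℕ, List.TFAE [
      (fun x : ℝ => primeSum a x - κ * Real.log (Real.log x)) =O[atTop] (fun _ => (1 : ℝ)),
      (fun σ : ℝ => primeSeries a σ - κ * Real.log (1 / σ)) =O[𝓝[>] 0] (fun _ => (1 : ℝ)),
      (fun k : ℕ => primeSeries a (1 / 2 ^ k) - κ * (k * Real.log 2)) =O[atTop] (fun _ => (1 : ℝ)),
      (fun σ : ℝ => squareSeries a σ) =Θ[𝓝[>] 0] (fun σ : ℝ => (1 / σ) ^ κ),
      (fun x : ℝ => squareSum a x) =Θ[atTop] (fun x : ℝ => Real.log x ^ κ)]) ∧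
    (SelbergConjecture ↔ ∀ a : ℕ → ℂ, IsPrimitive a → (fun x : ℝ => squareSum a x) =Θ[atTop] Real.log) ∧
    (SelbergConjecture ↔ ∀ a : ℕ → ℂ, IsPrimitive a →
      (fun σ : ℝ => squareSeries a σ) =Θ[𝓝[>] 0] (fun σ : ℝ => 1 / σ)) := by
  have h1 : ∀ a : ℕ → ℂ, IsSelberg a → _ := fun a ha => ha.mr.tfae
  refine ⟨h1, ?_, ?_⟩
  · refine forall_congr' fun a => imp_congr_right fun ha => ?_
    have h2 := (h1 a ha.1 1).out 0 4
    simpa using h2
  · refine forall_congr' fun a => imp_congr_right fun ha => ?_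
    have h2 := (h1 a ha.1 1).out 0 3
    simpa using h2

end Pool.Agent.Results.MP_8e9775_nt.MeanSquareCriterion
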